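import Pool.Agent.Lib.CT17.Top
import Pool.Agent.Lib.MP_5f4cd2_co.Lower

namespace Pool.Agent.CT17

open Module Finset

variable {F : Type} [Field F] [Fintype F]

lemma all_ranks (r : ℕ) : ∀ ε : ℝ, 0 < ε → ∃ C, 0 ≤ C ∧ Bd F r ε C := by
  induction r with
  | zero => exact fun ε _ => ⟨0, le_rfl, fun b hb => absurd hb (Nat.not_lt_zero b)⟩
  | succ r ih =>
    intro ε hε
    obtain ⟨C1, h1, b1⟩ := ih ε hε
    obtain ⟨C2, h2, b2⟩ := next_rank ih hε
    refine ⟨C1 + C2, by positivity, fun b hb s m => ?_⟩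
    rcases Nat.lt_succ_iff_lt_or_eq.mp hb with hb | rfl
    · refine Cov.mono (b1 b hb s m) ?_
      gcongr
      linarith
    · refine Cov.mono (b2 s m) ?_
      gcongr
      linarith

open Pool.Agent.Lib.MP_5f4cd2_co in
lemma covers_of_K {r k m : ℕ} {N : ℝ} (h : K F r k m N) :
    ∃ M : Finset (Matrix (Fin k) (Fin m) F), Covers r M ∧ (M.card : ℝ) ≤ N := by
  classical
  obtain ⟨M, h1, h2⟩ := h
  refine ⟨M.image fun f => LinearMap.toMatrixRight' f, fun B hB C => ?_,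
    le_trans (by exact_mod_cast card_image_le) h1⟩
  obtain ⟨A0, -, hA0⟩ := covers_univ B hB C
  obtain ⟨f, hf, hf2⟩ := h2 (Submodule.span F (Set.range B.row))
    ((finrank_range_le_card _).trans (by simp)) A0.vecMulLinear
  refine ⟨_, mem_image.mpr ⟨f, hf, rfl⟩, ?_⟩
  rw [← hA0]
  ext i j
  have h3 := hf2 (B.row i) (Submodule.subset_span ⟨i, rfl⟩)
  have h4 : Matrix.vecMul (B.row i) (LinearMap.toMatrixRight' f) = f (B.row i) := by
    rw [← Matrix.toLinearMapRight'_apply, LinearEquiv.symm_apply_apply]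
  rw [Matrix.vecMulLinear_apply, ← h4] at h3
  exact congrFun h3 j

open Pool.Agent.Lib.MP_5f4cd2_co in
theorem upper_all (r : ℕ) (hr : 1 ≤ r) (ε : ℝ) (hε : 0 < ε) : ∃ C : ℝ, ∀ n k : ℕ,
    (T F n k r : ℝ) ≤ C * ((Fintype.card F : ℝ) ^ (n - k)) ^ ε *
      (((Fintype.card F : ℝ) ^ (n - k)) ^ (r - 1) * (k + (Fintype.card F : ℝ) ^ (n - k))) := by
  obtain ⟨r, rfl⟩ : ∃ r', r = r' + 1 := ⟨r - 1, by omega⟩
  obtain ⟨C, -, hB⟩ := all_ranks (F := F) (r + 1) ε hε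
  refine ⟨C, fun n k => ?_⟩
  obtain ⟨M, hM, hc⟩ := covers_of_K (hB r (Nat.lt_succ_self r) k (n - k))
  have h1 : T F n k (r + 1) ≤ M.card := Nat.sInf_le ⟨M, hM, rfl⟩
  rw [Nat.add_sub_cancel, ← mul_assoc]
  exact le_trans (by exact_mod_cast h1) hc

open Pool.Agent.Lib.MP_5f4cd2_co in
theorem lower_all (n k r : ℕ) (hr : 1 ≤ r) (hrk : r ≤ k) (hkn : k < n) :
    (Fintype.card F ^ (n - k)) ^ (r - 1) * (k + Fintype.card F ^ (n - k)) ≤ 2 * r * T F n k r := by
  classical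
  obtain ⟨r, rfl⟩ : ∃ r', r = r' + 1 := ⟨r - 1, by omega⟩
  obtain ⟨k, rfl⟩ : ∃ k', k = r + k' := ⟨k - r, by omega⟩
  have hq : 1 < Fintype.card F := Fintype.one_lt_card
  set m := n - (r + k) with hm
  obtain ⟨M, hM, hc⟩ : T F n (r + k) (r + 1) ∈
      {N | ∃ M : Finset (Matrix (Fin (r + k)) (Fin m) F), Covers (r + 1) M ∧ M.card = N} :=
    Nat.sInf_mem ⟨_, Finset.univ, covers_univ, rfl⟩
  have hk : 1 ≤ k := by omega
  have hk2 : k ≤ (Fintype.card F - 1) * k := Nat.le_mul_of_pos_left _ (by omega)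
  have l1 := lower (by omega) hk M hM (Fintype.card F ^ m) fun j h1 h2 => by
    have := Nat.le_of_dvd (by omega) h1
    omega
  have l2 := lower (by omega) hk M hM k fun j _ h2 => by omega
  rw [← hc, Nat.add_sub_cancel]
  have e1 : r + k ≤ (r + 1) * k := by nlinarith
  have e2 : Fintype.card F ^ m ≤ (r + 1) * Fintype.card F ^ m := Nat.le_mul_of_pos_left _ (by omega)
  calc _ ≤ (Fintype.card F ^ m) ^ r * ((r + 1) * k + (r + 1) * Fintype.card F ^ m) :=
        Nat.mul_le_mul_left _ (Nat.add_le_add e1 e2)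
    _ = (r + 1) * ((Fintype.card F ^ m) ^ r * k) +
        (r + 1) * ((Fintype.card F ^ m) ^ r * Fintype.card F ^ m) := by ring
    _ ≤ (r + 1) * M.card + (r + 1) * M.card :=
        Nat.add_le_add (Nat.mul_le_mul_left _ l2) (Nat.mul_le_mul_left _ l1)
    _ = _ := by ring

end Pool.Agent.CT17
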