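import Mathlib

namespace Pool.Agent.CT17

lemma arith {r d κ y Z ω C k nb : ℝ} {r0 dn : ℕ} (hr : 1 ≤ r) (hd : 0 ≤ d) (hκ : 1 ≤ κ)
    (hy : 1 ≤ y) (hZ : 0 ≤ Z) (hω : 1 ≤ ω) (hk : 0 ≤ k) (hdn : 1 ≤ dn)
    (hnb : nb * Z ≤ 2 * r * (y ^ dn) ^ (r0 + 1) * (k + Z))
    (hy2 : y ^ (10 * (r0 + 1) * dn) ≤ ω ^ 2) :
    nb * ((κ * y ^ (2 * (r0 + 1))) ^ dn * (1 + d * ((κ * y ^ (2 * (r0 + 1))) * (y ^ dn) ^ (r0 + 1) *
      (r * (4 * C ^ 2 * ω ^ 2 * (κ * y ^ (2 * (r0 + 1))) ^ (2 * dn))))) * Z ^ (r0 + 1))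
      ≤ 2 * r * (1 + 4 * d * r * C ^ 2) * κ ^ (3 * dn + 1) * ω ^ 4 * Z ^ r0 * (k + Z) := by
  set a := κ * y ^ (2 * (r0 + 1)) with ha
  set z := (y ^ dn) ^ (r0 + 1) with hz
  have ha1 : 1 ≤ a := one_le_mul_of_one_le_of_one_le hκ (one_le_pow₀ hy)
  have hz1 : 1 ≤ z := one_le_pow₀ (one_le_pow₀ hy)
  have h1 : 1 ≤ a ^ (2 * dn + 1) * z * ω ^ 2 :=
    one_le_mul_of_one_le_of_one_le (one_le_mul_of_one_le_of_one_le (one_le_pow₀ ha1) hz1)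
      (one_le_pow₀ hω)
  have h2 : 1 + d * (a * z * (r * (4 * C ^ 2 * ω ^ 2 * a ^ (2 * dn))))
      ≤ (1 + 4 * d * r * C ^ 2) * (a ^ (2 * dn + 1) * z * ω ^ 2) := by
    have : d * (a * z * (r * (4 * C ^ 2 * ω ^ 2 * a ^ (2 * dn))))
        = 4 * d * r * C ^ 2 * (a ^ (2 * dn + 1) * z * ω ^ 2) := by ring
    rw [this, add_mul, one_mul]
    linarith
  have h3 : z * z * a ^ (3 * dn + 1) ≤ κ ^ (3 * dn + 1) * ω ^ 2 := by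
    have e : z * z * a ^ (3 * dn + 1) = κ ^ (3 * dn + 1) *
        y ^ (dn * (r0 + 1) + dn * (r0 + 1) + 2 * (r0 + 1) * (3 * dn + 1)) := by
      rw [ha, hz, mul_pow, ← pow_mul, ← pow_mul, pow_add, pow_add]
      ring
    rw [e]
    refine mul_le_mul_of_nonneg_left (le_trans (pow_le_pow_right₀ hy ?_) hy2) (by positivity)
    nlinarith
  have h0 : 0 ≤ 1 + d * (a * z * (r * (4 * C ^ 2 * ω ^ 2 * a ^ (2 * dn)))) := by positivity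
  calc nb * (a ^ dn * (1 + d * (a * z * (r * (4 * C ^ 2 * ω ^ 2 * a ^ (2 * dn))))) * Z ^ (r0 + 1))
      = (nb * Z) * (a ^ dn * (1 + d * (a * z * (r * (4 * C ^ 2 * ω ^ 2 * a ^ (2 * dn))))) *
        Z ^ r0) := by ring
    _ ≤ (2 * r * z * (k + Z)) * (a ^ dn * ((1 + 4 * d * r * C ^ 2) *
        (a ^ (2 * dn + 1) * z * ω ^ 2)) * Z ^ r0) := by gcongr
    _ = 2 * r * (1 + 4 * d * r * C ^ 2) * (z * z * a ^ (3 * dn + 1)) * ω ^ 2 * Z ^ r0 *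
        (k + Z) := by ring
    _ ≤ 2 * r * (1 + 4 * d * r * C ^ 2) * (κ ^ (3 * dn + 1) * ω ^ 2) * ω ^ 2 * Z ^ r0 *
        (k + Z) := by gcongr
    _ = _ := by ring

lemma two_le_sq (r : ℕ) : 2 * (r + 1) ≤ (r + 1 + 1) ^ 2 := by nlinarith

lemma blocks {r k s n : ℕ} (h1 : 2 * r * k < s * n) (h2 : 2 * r ≤ s) : r * k + r * n < s * n := by
  have := Nat.mul_le_mul_right n h2
  nlinarith

lemma expo {r d ε : ℝ} (hr : 0 ≤ r) (hd : 0 ≤ d) (hε : 0 < ε) (h : 20 ≤ d * ε) :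
    10 * (r + 1) * d ≤ d * (r * d + (r + 1) + d) * (ε / 4 * 2) := by
  have h5 : 0 ≤ (r + 1) * d := by positivity
  have h6 : 10 ≤ (d + 1) * (ε / 4 * 2) := by nlinarith
  have := mul_le_mul_of_nonneg_left h6 h5
  nlinarith

end Pool.Agent.CT17
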