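import Mathlib

namespace Pool.Agent.CT17

open Module Finset

/-- at most `N` linear maps `U → W` that interpolate every linear map on every subspace of
dimension at most `r`. -/
def Cov (F : Type) [Field F] (r : ℕ) (U W : Type) [AddCommGroup U] [Module F U]
    [AddCommGroup W] [Module F W] (N : ℝ) : Prop :=
  ∃ M : Finset (U →ₗ[F] W), (M.card : ℝ) ≤ N ∧ ∀ P : Submodule F U, finrank F P ≤ r →
    ∀ φ : U →ₗ[F] W, ∃ A ∈ M, ∀ p ∈ P, A p = φ p

variable {F : Type} [Field F] {U V W W' : Type} [AddCommGroup U] [Module F U]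
  [AddCommGroup V] [Module F V] [AddCommGroup W] [Module F W] [AddCommGroup W'] [Module F W']

lemma factor (π : U →ₗ[F] V) (χ : U →ₗ[F] W) (P : Submodule F U)
    (h : ∀ p ∈ P, π p = 0 → χ p = 0) : ∃ ψ : V →ₗ[F] W, ∀ p ∈ P, ψ (π p) = χ p := by
  have hk : LinearMap.ker (π.domRestrict P) ≤ LinearMap.ker (χ.domRestrict P) := by
    intro p hp
    exact h p.1 p.2 hp
  obtain ⟨ψ, hψ⟩ := LinearMap.exists_extend
    (((LinearMap.ker (π.domRestrict P)).liftQ (χ.domRestrict P) hk) ∘ₗ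
      (π.domRestrict P).quotKerEquivRange.symm.toLinearMap)
  refine ⟨ψ, fun p hp => ?_⟩
  have h1 := LinearMap.congr_fun hψ ⟨π.domRestrict P ⟨p, hp⟩, LinearMap.mem_range_self _ _⟩
  rw [LinearMap.comp_apply, LinearMap.comp_apply, LinearEquiv.coe_coe,
    LinearMap.quotKerEquivRange_symm_apply_image] at h1
  exact h1

lemma Cov.mono {r : ℕ} {N N' : ℝ} (h : Cov F r U W N) (hN : N ≤ N') : Cov F r U W N' := by
  obtain ⟨M, h1, h2⟩ := h
  exact ⟨M, h1.trans hN, h2⟩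

lemma Cov.nonneg {r : ℕ} {N : ℝ} (h : Cov F r U W N) : 0 ≤ N := by
  obtain ⟨M, h1, -⟩ := h
  exact (Nat.cast_nonneg _).trans h1

lemma Cov.outer [Module.Finite F U] {r : ℕ} {N : ℝ} {J : Type} [Fintype J] (f : J → U →ₗ[F] V)
    (hf : ∀ P : Submodule F U, finrank F P ≤ r → ∃ j, ∀ p ∈ P, f j p = 0 → p = 0)
    (h : Cov F r V W N) : Cov F r U W (Fintype.card J * N) := by
  classical
  obtain ⟨M, h1, h2⟩ := h
  refine ⟨(univ ×ˢ M).image fun x : J × (V →ₗ[F] W) => x.2 ∘ₗ f x.1, ?_, fun P hP φ => ?_⟩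
  · have h3 : (((univ ×ˢ M).image fun x : J × (V →ₗ[F] W) => x.2 ∘ₗ f x.1).card : ℝ)
        ≤ ((univ : Finset J) ×ˢ M).card := by exact_mod_cast card_image_le
    rw [card_product, card_univ] at h3
    push_cast at h3
    exact h3.trans (mul_le_mul_of_nonneg_left h1 (Nat.cast_nonneg _))
  · obtain ⟨j, hj⟩ := hf P hP
    obtain ⟨ψ, hψ⟩ := factor (f j) φ P fun p hp h0 => by rw [hj p hp h0, map_zero]
    obtain ⟨A, hA, hAψ⟩ := h2 (P.map (f j)) ((Submodule.finrank_map_le _ _).trans hP) ψ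
    refine ⟨A ∘ₗ f j, mem_image.mpr ⟨(j, A), mem_product.mpr ⟨mem_univ _, hA⟩, rfl⟩, ?_⟩
    intro p hp
    rw [LinearMap.comp_apply, hAψ _ (Submodule.mem_map_of_mem hp), hψ p hp]

lemma exists_retr [Module.Finite F U] [Module.Finite F V] (h : finrank F U ≤ finrank F V) :
    ∃ (τ : U →ₗ[F] V) (σ : V →ₗ[F] U), ∀ u, σ (τ u) = u := by
  obtain ⟨τ, hτ⟩ := (finrank_le_iff_exists_linearMap).mp
    (show finrank F U ≤ finrank F V from h)
  obtain ⟨σ, hσ⟩ := τ.exists_leftInverse_of_injective (LinearMap.ker_eq_bot.mpr hτ)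
  exact ⟨τ, σ, fun u => LinearMap.congr_fun hσ u⟩

lemma Cov.left [Module.Finite F U] [Module.Finite F V] {r : ℕ} {N : ℝ}
    (hd : finrank F U ≤ finrank F V) (h : Cov F r V W N) : Cov F r U W N := by
  obtain ⟨τ, σ, hσ⟩ := exists_retr hd
  have := Cov.outer (J := Unit) (fun _ => τ)
    (fun P _ => ⟨(), fun p _ h0 => by rw [← hσ p, h0, map_zero]⟩) h
  simpa using this

lemma Cov.right [Module.Finite F W] [Module.Finite F W'] {r : ℕ} {N : ℝ}
    (hd : finrank F W' ≤ finrank F W) (h : Cov F r U W N) : Cov F r U W' N := by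
  classical
  obtain ⟨τ, σ, hσ⟩ := exists_retr hd
  obtain ⟨M, h1, h2⟩ := h
  refine ⟨M.image fun A => σ ∘ₗ A, le_trans (by exact_mod_cast card_image_le) h1,
    fun P hP φ => ?_⟩
  obtain ⟨A, hA, h3⟩ := h2 P hP (τ ∘ₗ φ)
  refine ⟨σ ∘ₗ A, mem_image.mpr ⟨A, hA, rfl⟩, fun p hp => ?_⟩
  rw [LinearMap.comp_apply, h3 p hp, LinearMap.comp_apply, hσ]

lemma rank_split [Module.Finite F U] (π : U →ₗ[F] V) (P : Submodule F U) :
    finrank F (P.map π) + finrank F ↥(P ⊓ LinearMap.ker π) = finrank F P := by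
  have h := LinearMap.finrank_range_add_finrank_ker (π.domRestrict P)
  rw [LinearMap.range_domRestrict, LinearMap.ker_domRestrict,
    ← Submodule.finrank_map_subtype_eq P, Submodule.map_comap_subtype] at h
  exact h

/-- the recursion step. -/
lemma step [Module.Finite F V] [Module.Finite F W] {X I H : Type} [Fintype X] [Fintype I]
    [Fintype H] [Nonempty X] {r : ℕ} {N Φ : ℝ} (hΦ : 0 ≤ Φ)
    (R : I → H → X → Prop) (th : H → X → ℤ)
    (hD : ∀ h x, ∃ i, R i h x ∧ ∀ h' y, R i h' y → (h' = h ∧ y = x) ∨ th h y < th h x)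
    (ι : H → W' →ₗ[F] W) (σ : H → W →ₗ[F] W')
    (hA : ∀ S : Submodule F W, finrank F S ≤ r → ∃ h, ∀ w ∈ S, ι h (σ h w) = w)
    (h1 : Cov F r V W' N)
    (h2 : ∀ b, 1 ≤ b → b < r → ∃ a a', Cov F b V W a ∧ Cov F (r - b) (X → V) W a' ∧ a * a' ≤ Φ) :
    Cov F r (X → V) W (Fintype.card I * N + Fintype.card X * (r * Φ)) := by
  classical
  obtain ⟨M, hM, hM2⟩ := h1
  have h3 : ∀ b : ℕ, ∃ (MA : Finset (V →ₗ[F] W)) (MB : Finset ((X → V) →ₗ[F] W)),
      (MA.card : ℝ) * MB.card ≤ Φ ∧ (1 ≤ b → b < r →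
        (∀ P : Submodule F V, finrank F P ≤ b → ∀ φ : V →ₗ[F] W, ∃ A ∈ MA, ∀ p ∈ P, A p = φ p) ∧
        (∀ P : Submodule F (X → V), finrank F P ≤ r - b → ∀ φ : (X → V) →ₗ[F] W,
          ∃ A ∈ MB, ∀ p ∈ P, A p = φ p)) := by
    intro b
    by_cases hb : 1 ≤ b ∧ b < r
    · obtain ⟨a, a', ⟨MA, c1, c2⟩, ⟨MB, c3, c4⟩, c5⟩ := h2 b hb.1 hb.2
      refine ⟨MA, MB, le_trans ?_ c5, fun _ _ => ⟨c2, c4⟩⟩
      exact mul_le_mul c1 c3 (Nat.cast_nonneg _) ((Nat.cast_nonneg _).trans c1)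
    · exact ⟨∅, ∅, by simpa using hΦ, fun a b => absurd ⟨a, b⟩ hb⟩
  choose MA MB hAB hcov using h3
  let ov : I × (V →ₗ[F] W') → ((X → V) →ₗ[F] W) := fun z =>
    ∑ t : H × X, if R z.1 t.1 t.2 then ι t.1 ∘ₗ z.2 ∘ₗ LinearMap.proj t.2 else 0
  let fr : X → (V →ₗ[F] W) × ((X → V) →ₗ[F] W) → ((X → V) →ₗ[F] W) := fun x z =>
    z.2 + z.1 ∘ₗ LinearMap.proj x
  refine ⟨(univ ×ˢ M).image ov ∪ (univ ×ˢ range r).biUnion
    (fun t : X × ℕ => (MA t.2 ×ˢ MB t.2).image (fr t.1)), ?_, fun P hP φ => ?_⟩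
  · have e1 : (((univ ×ˢ M).image ov).card : ℝ) ≤ Fintype.card I * N := by
      have h4 : (((univ ×ˢ M).image ov).card : ℝ) ≤ ((univ : Finset I) ×ˢ M).card := by
        exact_mod_cast card_image_le
      rw [card_product, card_univ] at h4
      push_cast at h4
      exact h4.trans (mul_le_mul_of_nonneg_left hM (Nat.cast_nonneg _))
    have e2 : ((((univ : Finset X) ×ˢ range r).biUnion
        (fun t : X × ℕ => (MA t.2 ×ˢ MB t.2).image (fr t.1))).card : ℝ)
        ≤ Fintype.card X * (r * Φ) := by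
      refine le_trans (Nat.cast_le.mpr card_biUnion_le) ?_
      push_cast
      refine le_trans (sum_le_card_nsmul _ _ Φ fun t _ => ?_) ?_
      · refine le_trans (Nat.cast_le.mpr card_image_le) ?_
        rw [card_product]
        push_cast
        exact hAB t.2
      · rw [card_product, card_univ, card_range, nsmul_eq_mul]
        push_cast
        rw [mul_assoc]
    refine le_trans (Nat.cast_le.mpr (card_union_le _ _)) ?_
    push_cast
    exact add_le_add e1 e2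
  by_cases hc : ∃ x, (∃ p ∈ P, p x = 0 ∧ p ≠ 0) ∧ ∃ p ∈ P, p x ≠ 0
  · obtain ⟨x, ⟨p, hp, hpx, hp0⟩, ⟨p', hp', hpx'⟩⟩ := hc
    let π : (X → V) →ₗ[F] V := LinearMap.proj x
    have hs := rank_split π P
    have a1 : finrank F (P.map π) ≠ 0 := by
      intro h0
      have := Submodule.finrank_eq_zero.mp h0
      have h5 : π p' ∈ P.map π := Submodule.mem_map_of_mem hp'
      rw [this] at h5
      exact hpx' h5
    have a2 : finrank F ↥(P ⊓ LinearMap.ker π) ≠ 0 := by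
      intro h0
      have := Submodule.finrank_eq_zero.mp h0
      have h5 : p ∈ P ⊓ LinearMap.ker π := ⟨hp, hpx⟩
      rw [this] at h5
      exact hp0 h5
    obtain ⟨c1, c2⟩ := hcov (finrank F (P.map π)) (by omega) (by omega)
    obtain ⟨A1, hA1, hA1'⟩ := c2 (P ⊓ LinearMap.ker π) (by omega) φ
    obtain ⟨ψ, hψ⟩ := factor π (φ - A1) P fun u hu h0 => by
      rw [LinearMap.sub_apply, hA1' u ⟨hu, h0⟩, sub_self]
    obtain ⟨A2, hA2, hA2'⟩ := c1 (P.map π) le_rfl ψ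
    refine ⟨fr x (A2, A1), mem_union_right _ (mem_biUnion.mpr ⟨(x, finrank F (P.map π)),
      mem_product.mpr ⟨mem_univ _, mem_range.mpr (by omega)⟩,
      mem_image.mpr ⟨(A2, A1), mem_product.mpr ⟨hA2, hA1⟩, rfl⟩⟩), fun u hu => ?_⟩
    have : A2 (π u) = φ u - A1 u := by
      rw [hA2' _ (Submodule.mem_map_of_mem hu), hψ u hu, LinearMap.sub_apply]
    change A1 u + A2 (π u) = φ u
    rw [this]
    abel
  · obtain ⟨h, hh⟩ := hA (P.map φ) ((Submodule.finrank_map_le _ _).trans hP)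
    have hx : ∃ x, (∀ p ∈ P, p x = 0 → p = 0) ∧ ∀ y, th h y < th h x → ∀ p ∈ P, p y = 0 := by
      by_cases hz : (univ.filter fun x : X => ∃ p ∈ P, p x ≠ 0).Nonempty
      · obtain ⟨x, hx1, hx2⟩ := exists_min_image _ (th h) hz
        refine ⟨x, fun p hp h0 => ?_, fun y hy p hp => ?_⟩
        · by_contra hp0
          exact hc ⟨x, ⟨p, hp, h0, hp0⟩, (mem_filter.mp hx1).2⟩
        · by_contra hp0
          exact absurd (hx2 y (mem_filter.mpr ⟨mem_univ _, p, hp, hp0⟩)) (not_le.mpr hy)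
      · have h0 : ∀ y, ∀ p ∈ P, p y = 0 := fun y p hp => by
          by_contra hp0
          exact hz ⟨y, mem_filter.mpr ⟨mem_univ _, p, hp, hp0⟩⟩
        exact ⟨Classical.arbitrary X, fun p hp _ => funext fun y => h0 y p hp,
          fun y _ => h0 y⟩
    obtain ⟨x, hx1, hx2⟩ := hx
    obtain ⟨i, hi, hi2⟩ := hD h x
    let π : (X → V) →ₗ[F] V := LinearMap.proj x
    obtain ⟨ψ, hψ⟩ := factor π (σ h ∘ₗ φ) P fun u hu h0 => by rw [hx1 u hu h0, map_zero]
    obtain ⟨A, hA1, hA2⟩ := hM2 (P.map π) ((Submodule.finrank_map_le _ _).trans hP) ψ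
    refine ⟨ov (i, A), mem_union_left _
      (mem_image.mpr ⟨(i, A), mem_product.mpr ⟨mem_univ _, hA1⟩, rfl⟩), fun u hu => ?_⟩
    simp only [ov, LinearMap.sum_apply]
    rw [sum_eq_single (h, x)]
    · rw [if_pos hi]
      change ι h (A (π u)) = φ u
      rw [hA2 _ (Submodule.mem_map_of_mem hu), hψ u hu, LinearMap.comp_apply]
      exact hh _ (Submodule.mem_map_of_mem hu)
    · intro t _ ht
      by_cases hR : R i t.1 t.2
      · rw [if_pos hR]
        rcases hi2 _ _ hR with ⟨e1, e2⟩ | hlt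
        · exact absurd (Prod.ext e1 e2) ht
        · change ι t.1 (A (u t.2)) = 0
          rw [hx2 _ hlt u hu, map_zero, map_zero]
      · rw [if_neg hR, LinearMap.zero_apply]
    · intro hn
      exact absurd (mem_univ _) hn

end Pool.Agent.CT17
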