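import Pool.Agent.Lib.CT17.Core

namespace Pool.Agent.CT17

open Module Finset

/-- the paraboloid design. -/
lemma design {H : Type} {d l : ℕ} (e : H → Fin d → Fin l) (he : Function.Injective e) :
    ∃ (R : (Fin d → Fin (2 * l)) × Fin (2 * (d * l ^ 2)) → H →
        (Fin d → Fin l) × Fin (d * l ^ 2) → Prop)
      (th : H → (Fin d → Fin l) × Fin (d * l ^ 2) → ℤ),
      ∀ h x, ∃ i, R i h x ∧ ∀ h' y, R i h' y → (h' = h ∧ y = x) ∨ th h y < th h x := by
  refine ⟨fun i h x => (∀ j, ((x.1 j : ℕ) : ℤ) + l = (i.1 j : ℕ) + (e h j : ℕ)) ∧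
      ((x.2 : ℕ) : ℤ) + (d * l ^ 2 : ℕ) = (i.2 : ℕ) + ∑ j, ((e h j : ℕ) : ℤ) ^ 2,
    fun h x => 2 * ∑ j, ((e h j : ℕ) : ℤ) * (x.1 j : ℕ) - (x.2 : ℕ), fun h x => ?_⟩
  have hs : ∑ j, (e h j : ℕ) ^ 2 ≤ d * l ^ 2 := by
    refine le_trans (sum_le_card_nsmul _ _ (l ^ 2) fun j _ => ?_) (by simp)
    exact Nat.pow_le_pow_left (e h j).2.le 2
  have h2 := x.2.2
  refine ⟨(fun j => ⟨x.1 j + l - e h j, by have := (x.1 j).2; have := (e h j).2; omega⟩,
    ⟨x.2 + d * l ^ 2 - ∑ j, (e h j : ℕ) ^ 2, by omega⟩), ⟨fun j => ?_, ?_⟩, ?_⟩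
  · have := (e h j).2
    simp only
    omega
  · simp only
    rw [Nat.cast_sub (by omega)]
    push_cast
    ring
  · rintro h' y ⟨a1, a2⟩
    simp only at a1 a2 ⊢
    rw [Nat.cast_sub (by omega)] at a2
    have b1 : ∀ j, ((y.1 j : ℕ) : ℤ) = (x.1 j : ℕ) - (e h j : ℕ) + (e h' j : ℕ) := by
      intro j
      have := a1 j
      have := (e h j).2
      omega
    have b2 : ((y.2 : ℕ) : ℤ) = (x.2 : ℕ) - ∑ j, ((e h j : ℕ) : ℤ) ^ 2
        + ∑ j, ((e h' j : ℕ) : ℤ) ^ 2 := by
      push_cast at a2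
      linarith
    by_cases hh : h' = h
    · subst hh
      refine Or.inl ⟨rfl, Prod.ext (funext fun j => Fin.ext ?_) (Fin.ext ?_)⟩
      · have := b1 j
        omega
      · omega
    · right
      obtain ⟨j0, hj0⟩ := Function.ne_iff.mp fun h0 => hh (he h0)
      have hpos : 0 < ∑ j, (((e h j : ℕ) : ℤ) - (e h' j : ℕ)) ^ 2 := by
        refine sum_pos' (fun j _ => sq_nonneg _) ⟨j0, mem_univ _, ?_⟩
        have : ((e h j0 : ℕ) : ℤ) - (e h' j0 : ℕ) ≠ 0 := fun h0 => hj0 (Fin.ext (by omega))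
        positivity
      have hid : ∑ j, (((e h j : ℕ) : ℤ) - (e h' j : ℕ)) ^ 2
          = 2 * ∑ j, ((e h j : ℕ) : ℤ) * (x.1 j : ℕ) - 2 * ∑ j, ((e h j : ℕ) : ℤ) * (y.1 j : ℕ)
            - ∑ j, ((e h j : ℕ) : ℤ) ^ 2 + ∑ j, ((e h' j : ℕ) : ℤ) ^ 2 := by
        rw [mul_sum, mul_sum, ← sum_sub_distrib, ← sum_sub_distrib, ← sum_add_distrib]
        refine sum_congr rfl fun j _ => ?_
        rw [b1 j]
        ring
      linarith

variable {F : Type} [Field F]

/-- any `r` vectors lie in one of `(r+1) |E|^r` hyperplanes over the extension `E`. -/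
lemma alphabet (E Y : Type) [Field E] [Algebra F E] [Module.Finite F E] [AddCommGroup Y]
    [Module F Y] [Module.Finite F Y] (r : ℕ) :
    ∃ (ι : Fin (r + 1) × (Fin r → E) → ((Fin r → E) × Y) →ₗ[F] ((Fin (r + 1) → E) × Y))
      (σ : Fin (r + 1) × (Fin r → E) → ((Fin (r + 1) → E) × Y) →ₗ[F] ((Fin r → E) × Y)),
      ∀ S : Submodule F ((Fin (r + 1) → E) × Y), finrank F S ≤ r →
        ∃ h, ∀ w ∈ S, ι h (σ h w) = w := by
  classical
  let i1 : Fin (r + 1) × (Fin r → E) → ((Fin r → E) →ₗ[E] (Fin (r + 1) → E)) := fun h =>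
    LinearMap.pi (Fin.insertNth (α := fun _ => (Fin r → E) →ₗ[E] E) h.1
      (∑ j, h.2 j • LinearMap.proj j) (fun j => LinearMap.proj j))
  let s1 : Fin (r + 1) × (Fin r → E) → ((Fin (r + 1) → E) →ₗ[E] (Fin r → E)) := fun h =>
    LinearMap.funLeft E E h.1.succAbove
  refine ⟨fun h => ((i1 h).restrictScalars F).prodMap LinearMap.id,
    fun h => ((s1 h).restrictScalars F).prodMap LinearMap.id, fun S hS => ?_⟩
  let b := Module.finBasis F S
  let T : Submodule E (Fin (r + 1) → E) := Submodule.span E (Set.range fun i => (b i).1.1)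
  have hT : T < ⊤ := by
    refine lt_top_iff_ne_top.mpr fun h => ?_
    have h1 : finrank E T ≤ Fintype.card (Fin (finrank F S)) := finrank_range_le_card _
    rw [h] at h1
    simp at h1
    omega
  obtain ⟨f, hf0, hf⟩ := Submodule.exists_le_ker_of_lt_top T hT
  have hmem : ∀ w ∈ S, f w.1 = 0 := by
    intro w hw
    apply hf
    have h1 : w = ∑ i, b.repr ⟨w, hw⟩ i • (b i).1 := by
      have := congrArg Subtype.val (b.sum_repr ⟨w, hw⟩)
      rw [Submodule.coe_sum] at this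
      exact this.symm
    rw [h1, Prod.fst_sum]
    refine T.sum_mem fun i _ => ?_
    exact T.smul_of_tower_mem _ (Submodule.subset_span ⟨i, rfl⟩)
  let μ : Fin (r + 1) → E := fun k => f fun j => if k = j then 1 else 0
  obtain ⟨a, ha⟩ : ∃ a, μ a ≠ 0 := by
    by_contra hc
    push Not at hc
    apply hf0
    refine LinearMap.ext fun v => ?_
    rw [LinearMap.pi_apply_eq_sum_univ]
    simp only [μ] at hc
    simp [hc]
  refine ⟨(a, fun j => -μ (a.succAbove j) / μ a), fun w hw => Prod.ext ?_ rfl⟩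
  have h2 := hmem w hw
  rw [LinearMap.pi_apply_eq_sum_univ, Fin.sum_univ_succAbove _ a] at h2
  change w.1 a * μ a + ∑ j, w.1 (a.succAbove j) * μ (a.succAbove j) = 0 at h2
  funext k
  refine Fin.succAboveCases a ?_ (fun j => ?_) k
  · simp only [i1, s1, LinearMap.prodMap_apply, LinearMap.restrictScalars_apply,
      LinearMap.pi_apply, Fin.insertNth_apply_same, LinearMap.sum_apply, LinearMap.smul_apply,
      LinearMap.proj_apply, LinearMap.funLeft_apply, smul_eq_mul]
    apply mul_right_cancel₀ ha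
    rw [sum_mul, eq_neg_of_add_eq_zero_left h2, ← sum_neg_distrib]
    refine sum_congr rfl fun j _ => ?_
    field_simp
  · simp only [i1, s1, LinearMap.prodMap_apply, LinearMap.restrictScalars_apply,
      LinearMap.pi_apply, Fin.insertNth_apply_succAbove, LinearMap.proj_apply,
      LinearMap.funLeft_apply]

variable [Fintype F]

lemma card_lin (a b : ℕ) :
    Nat.card ((Fin a → F) →ₗ[F] (Fin b → F)) = Fintype.card F ^ (a * b) := by
  rw [Module.natCard_eq_pow_finrank (K := F), Module.finrank_linearMap]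
  simp

lemma card_kill {k s : ℕ} (v : Fin k → F) (hv : v ≠ 0) :
    Nat.card {f : (Fin k → F) →ₗ[F] (Fin s → F) // f v = 0} * Fintype.card F ^ s
      = Fintype.card F ^ (k * s) := by
  let ev : ((Fin k → F) →ₗ[F] (Fin s → F)) →ₗ[F] (Fin s → F) := LinearMap.applyₗ v
  have hs : LinearMap.range ev = ⊤ := by
    rw [LinearMap.range_eq_top]
    intro w
    obtain ⟨i, hi⟩ := Function.ne_iff.mp hv
    refine ⟨((v i)⁻¹ • LinearMap.proj i : (Fin k → F) →ₗ[F] F).smulRight w, ?_⟩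
    have : v i ≠ 0 := hi
    simp [ev, this]
  have h1 := LinearMap.finrank_range_add_finrank_ker ev
  rw [hs, finrank_top, Module.finrank_linearMap] at h1
  simp only [finrank_fintype_fun_eq_card, Fintype.card_fin] at h1
  have h2 : Nat.card {f : (Fin k → F) →ₗ[F] (Fin s → F) // f v = 0}
      = Nat.card (LinearMap.ker ev) := rfl
  rw [h2, Module.natCard_eq_pow_finrank (K := F), Nat.card_eq_fintype_card, ← pow_add, ← h1,
    add_comm]

/-- the outer code, by a union bound. -/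
lemma outer_code {k s r n : ℕ} (h : r * k + r * n < s * n) :
    ∃ f : Fin n → (Fin k → F) →ₗ[F] (Fin s → F), ∀ P : Submodule F (Fin k → F),
      finrank F P ≤ r → ∃ j, ∀ p ∈ P, f j p = 0 → p = 0 := by
  classical
  have : Finite ((Fin k → F) →ₗ[F] (Fin s → F)) := DFunLike.finite _
  have : Finite ((Fin r → F) →ₗ[F] (Fin k → F)) := DFunLike.finite _
  let _ : Fintype ((Fin k → F) →ₗ[F] (Fin s → F)) := Fintype.ofFinite _
  let _ : Fintype ((Fin r → F) →ₗ[F] (Fin k → F)) := Fintype.ofFinite _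
  set q := Fintype.card F with hq
  have hq1 : 1 < q := Fintype.one_lt_card
  let B : ((Fin r → F) →ₗ[F] (Fin k → F)) → Finset ((Fin k → F) →ₗ[F] (Fin s → F)) := fun g =>
    (univ.filter fun c : Fin r → F => g c ≠ 0).biUnion fun c => univ.filter fun f => f (g c) = 0
  have hB : ∀ g, (B g).card * q ^ s ≤ q ^ r * q ^ (k * s) := by
    intro g
    refine le_trans (Nat.mul_le_mul_right _ card_biUnion_le) ?_
    rw [sum_mul]
    refine le_trans (sum_le_card_nsmul _ _ (q ^ (k * s)) fun c hc => ?_) ?_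
    · rw [← card_kill (s := s) (g c) (mem_filter.mp hc).2, Nat.card_eq_fintype_card,
        Fintype.card_subtype]
    · rw [smul_eq_mul]
      refine Nat.mul_le_mul_right _ ((card_filter_le _ _).trans ?_)
      simp [hq]
  have hlt : ((univ : Finset ((Fin r → F) →ₗ[F] (Fin k → F))).biUnion fun g =>
      Fintype.piFinset fun _ : Fin n => B g).card
      < (univ : Finset (Fin n → (Fin k → F) →ₗ[F] (Fin s → F))).card := by
    have c1 : (univ : Finset (Fin n → (Fin k → F) →ₗ[F] (Fin s → F))).card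
        = (q ^ (k * s)) ^ n := by
      rw [card_univ, Fintype.card_fun, ← Nat.card_eq_fintype_card, card_lin, Fintype.card_fin]
    have c2 : (univ : Finset ((Fin r → F) →ₗ[F] (Fin k → F))).card = q ^ (r * k) := by
      rw [card_univ, ← Nat.card_eq_fintype_card, card_lin]
    rw [c1]
    refine lt_of_mul_lt_mul_right (a := (q ^ s) ^ n) ?_ (Nat.zero_le _)
    refine lt_of_le_of_lt (Nat.mul_le_mul_right _ card_biUnion_le) ?_
    rw [sum_mul]
    refine lt_of_le_of_lt (sum_le_card_nsmul _ _ ((q ^ r * q ^ (k * s)) ^ n) fun g _ => ?_) ?_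
    · rw [Fintype.card_piFinset_const, ← mul_pow]
      exact Nat.pow_le_pow_left (hB g) n
    · rw [c2, smul_eq_mul]
      simp only [← pow_mul, ← pow_add]
      refine Nat.pow_lt_pow_right hq1 ?_
      nlinarith
  obtain ⟨f, -, hf⟩ := exists_mem_notMem_of_card_lt_card hlt
  refine ⟨f, fun P hP => ?_⟩
  obtain ⟨τ, σ, hσ⟩ := exists_retr (F := F) (U := P) (V := Fin r → F) (by simpa using hP)
  by_contra hc
  push Not at hc
  refine hf (mem_biUnion.mpr ⟨P.subtype ∘ₗ σ, mem_univ _, Fintype.mem_piFinset.mpr fun j => ?_⟩)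
  obtain ⟨p, hp, h0, h1⟩ := hc j
  have e : (P.subtype ∘ₗ σ) (τ ⟨p, hp⟩) = p := by rw [LinearMap.comp_apply, hσ]; rfl
  exact mem_biUnion.mpr ⟨τ ⟨p, hp⟩, mem_filter.mpr ⟨mem_univ _, by rw [e]; exact h1⟩,
    mem_filter.mpr ⟨mem_univ _, by rw [e]; exact h0⟩⟩

end Pool.Agent.CT17
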