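import Pool.Agent.Lib.CT17.Design

namespace Pool.Agent.CT17

open Module Finset

/-- `Cov` for coordinate spaces. -/
def K (F : Type) [Field F] (r s m : ℕ) (N : ℝ) : Prop := Cov F r (Fin s → F) (Fin m → F) N

variable {F : Type} [Field F] [Fintype F]

lemma K_base (r m : ℕ) : K F r 1 m ((Fintype.card F : ℝ) ^ m) := by
  classical
  have : Finite ((Fin 1 → F) →ₗ[F] (Fin m → F)) := DFunLike.finite _
  let _ : Fintype ((Fin 1 → F) →ₗ[F] (Fin m → F)) := Fintype.ofFinite _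
  refine ⟨univ, ?_, fun P _ φ => ⟨φ, mem_univ _, fun _ _ => rfl⟩⟩
  rw [card_univ, ← Nat.card_eq_fintype_card, card_lin]
  simp

lemma K_outer {r k s m n : ℕ} {N : ℝ} (h : r * k + r * n < s * n) (hK : K F r s m N) :
    K F r k m (n * N) := by
  obtain ⟨f, hf⟩ := outer_code (F := F) h
  have := Cov.outer f hf hK
  rwa [Fintype.card_fin] at this

lemma K_stage {r s c t d l : ℕ} {N Φ : ℝ} (hc : 1 ≤ c) (hd : 1 ≤ d) (hl : 1 ≤ l) (hΦ : 0 ≤ Φ)
    (hG : (r + 1) * (Fintype.card F ^ c) ^ r ≤ l ^ d) (h1 : K F r s (c * r + t) N)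
    (h2 : ∀ b, 1 ≤ b → b < r → ∃ a a', K F b s (c * r + t + c) a ∧
      K F (r - b) (d * l ^ (d + 2) * s) (c * r + t + c) a' ∧ a * a' ≤ Φ) :
    K F r (d * l ^ (d + 2) * s) (c * r + t + c)
      ((2 ^ (d + 1) * (d * l ^ (d + 2)) : ℕ) * N + (d * l ^ (d + 2) : ℕ) * (r * Φ)) := by
  classical
  obtain ⟨p, hp⟩ := CharP.exists F
  have : Fact p.Prime := ⟨CharP.char_is_prime F p⟩
  have : NeZero c := ⟨by omega⟩
  let E := FiniteField.Extension F p c
  let _ : Fintype E := Fintype.ofFinite E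
  have hE : Fintype.card E = Fintype.card F ^ c := by
    rw [← Nat.card_eq_fintype_card, ← Nat.card_eq_fintype_card]
    exact FiniteField.natCard_extension F p c
  have hfr : finrank F E = c := FiniteField.finrank_extension F p c
  obtain ⟨ι, σ, hA⟩ := alphabet (F := F) E (Fin t → F) r
  obtain ⟨e⟩ : Nonempty (Fin (r + 1) × (Fin r → E) ↪ (Fin d → Fin l)) := by
    apply Function.Embedding.nonempty_of_card_le
    simpa [hE] using hG
  obtain ⟨R, th, hD⟩ := design e e.injective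
  have : Nonempty ((Fin d → Fin l) × Fin (d * l ^ 2)) :=
    ⟨(fun _ => ⟨0, hl⟩, ⟨0, by positivity⟩)⟩
  have cX : Fintype.card ((Fin d → Fin l) × Fin (d * l ^ 2)) = d * l ^ (d + 2) := by
    simp only [Fintype.card_prod, Fintype.card_fun, Fintype.card_fin]
    ring
  have cI : Fintype.card ((Fin d → Fin (2 * l)) × Fin (2 * (d * l ^ 2)))
      = 2 ^ (d + 1) * (d * l ^ (d + 2)) := by
    simp only [Fintype.card_prod, Fintype.card_fun, Fintype.card_fin]
    ring
  have fW : finrank F ((Fin (r + 1) → E) × (Fin t → F)) = finrank F (Fin (c * r + t + c) → F) := by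
    rw [finrank_prod, Module.finrank_pi_fintype]
    simp only [hfr, sum_const, card_univ, Fintype.card_fin, smul_eq_mul,
      finrank_fintype_fun_eq_card]
    ring
  have fW' : finrank F ((Fin r → E) × (Fin t → F)) = finrank F (Fin (c * r + t) → F) := by
    rw [finrank_prod, Module.finrank_pi_fintype]
    simp only [hfr, sum_const, card_univ, Fintype.card_fin, smul_eq_mul,
      finrank_fintype_fun_eq_card]
    ring
  have fU : finrank F ((Fin d → Fin l) × Fin (d * l ^ 2) → Fin s → F)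
      = finrank F (Fin (d * l ^ (d + 2) * s) → F) := by
    rw [Module.finrank_pi_fintype]
    simp only [sum_const, card_univ, cX, Fintype.card_fin, smul_eq_mul,
      finrank_fintype_fun_eq_card]
  have key := step (V := Fin s → F) hΦ R th hD ι σ hA (Cov.right fW'.le h1) (by
    intro b hb hbr
    obtain ⟨a, a', k1, k2, k3⟩ := h2 b hb hbr
    exact ⟨a, a', Cov.right fW.le k1, Cov.left fU.le (Cov.right fW.le k2), k3⟩)
  rw [cX, cI] at key
  exact Cov.left fU.ge (Cov.right fW.ge key)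

/-- the bound for all ranks `1 ≤ b ≤ r`. -/
def Bd (F : Type) [Field F] [Fintype F] (r : ℕ) (ε C : ℝ) : Prop :=
  ∀ b, b < r → ∀ s m, K F (b + 1) s m (C * ((Fintype.card F : ℝ) ^ m) ^ ε *
    ((Fintype.card F : ℝ) ^ m) ^ b * (s + (Fintype.card F : ℝ) ^ m))

lemma stages {r0 d c l : ℕ} {ε C a : ℝ} (hε : 0 ≤ ε) (hC : 0 ≤ C) (hB : Bd F r0 ε C)
    (hc : 1 ≤ c) (hd : 1 ≤ d) (hl : 1 ≤ l)
    (hG : (r0 + 1 + 1) * (Fintype.card F ^ c) ^ (r0 + 1) ≤ l ^ d) (ha : 1 ≤ a)
    (hlam : ((2 ^ (d + 1) * (d * l ^ (d + 2)) : ℕ) : ℝ)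
      ≤ a * ((Fintype.card F : ℝ) ^ c) ^ (r0 + 1)) :
    ∀ g, g ≤ d → K F (r0 + 1) ((d * l ^ (d + 2)) ^ g) (c * (r0 * d + (r0 + 1) + g))
      (a ^ g * (1 + g * (a * ((Fintype.card F : ℝ) ^ c) ^ (r0 + 1) * ((r0 + 1) * (4 * C ^ 2 *
        ((((Fintype.card F : ℝ) ^ c) ^ (r0 * d + (r0 + 1) + d)) ^ ε) ^ 2 * a ^ (2 * d))))) *
        (((Fintype.card F : ℝ) ^ c) ^ (r0 * d + (r0 + 1) + g)) ^ (r0 + 1)) := by
  have hq : (1 : ℝ) ≤ Fintype.card F := by exact_mod_cast Fintype.card_pos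
  set z : ℝ := (Fintype.card F : ℝ) ^ c with hz
  have hz1 : 1 ≤ z := one_le_pow₀ hq
  set ω : ℝ := (z ^ (r0 * d + (r0 + 1) + d)) ^ ε with hω
  have hω0 : 0 ≤ ω := by positivity
  set n := d * l ^ (d + 2) with hn
  have hnl : (n : ℝ) ≤ a * z ^ (r0 + 1) := by
    refine le_trans ?_ hlam
    exact_mod_cast Nat.le_mul_of_pos_left _ (by positivity)
  set β : ℝ := a * z ^ (r0 + 1) * ((r0 + 1) * (4 * C ^ 2 * ω ^ 2 * a ^ (2 * d))) with hβ
  have hβ0 : 0 ≤ β := by positivity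
  intro g
  induction g with
  | zero =>
    intro _
    refine (K_base (F := F) (r0 + 1) _).mono ?_
    rw [pow_mul, ← hz]
    simp only [pow_zero, Nat.cast_zero, zero_mul, add_zero, mul_one, one_mul]
    exact le_self_pow₀ (one_le_pow₀ hz1) (by omega)
  | succ g ih =>
    intro hg
    have ih := ih (by omega)
    have e1 : c * (r0 * d + (r0 + 1) + g) = c * (r0 + 1) + c * (r0 * d + g) := by ring
    have e2 : c * (r0 * d + (r0 + 1) + (g + 1)) = c * (r0 + 1) + c * (r0 * d + g) + c := by ring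
    set Q : ℝ := z ^ (r0 * d + (r0 + 1) + (g + 1)) with hQ
    have hQ1 : 1 ≤ Q := one_le_pow₀ hz1
    have hQe : (Fintype.card F : ℝ) ^ (c * (r0 + 1) + c * (r0 * d + g) + c) = Q := by
      rw [← e2, pow_mul]
    have hQω : Q ^ ε ≤ ω :=
      Real.rpow_le_rpow (by positivity) (pow_le_pow_right₀ hz1 (by omega)) hε
    have hs : ∀ j, j ≤ g + 1 → ((n ^ j : ℕ) : ℝ) + Q ≤ 2 * a ^ d * Q := by
      intro j hj
      have h1 : ((n ^ j : ℕ) : ℝ) ≤ a ^ d * Q := by
        push_cast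
        refine (pow_le_pow_left₀ (Nat.cast_nonneg _) hnl j).trans ?_
        rw [mul_pow, ← pow_mul]
        refine mul_le_mul (pow_le_pow_right₀ ha (by omega)) (pow_le_pow_right₀ hz1 ?_)
          (by positivity) (by positivity)
        have : r0 * j ≤ r0 * d := Nat.mul_le_mul_left _ (by omega)
        nlinarith
      have h2 : Q ≤ a ^ d * Q := le_mul_of_one_le_left (by positivity) (one_le_pow₀ ha)
      linarith
    rw [e1] at ih
    have key := K_stage (Φ := 4 * C ^ 2 * ω ^ 2 * a ^ (2 * d) * Q ^ (r0 + 1)) hc hd hl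
      (by positivity) hG ih (by
        intro b hb hbr
        obtain ⟨b, rfl⟩ : ∃ b', b = b' + 1 := ⟨b - 1, by omega⟩
        obtain ⟨u, rfl⟩ : ∃ u, r0 = b + u + 1 := ⟨r0 - b - 1, by omega⟩
        have e3 : b + u + 1 + 1 - (b + 1) = u + 1 := by omega
        rw [e3]
        refine ⟨_, _, hB b (by omega) _ _, hB u (by omega) _ _, ?_⟩
        rw [hQe, ← hn, ← pow_succ']
        have k1 : C * Q ^ ε * Q ^ b * (((n ^ g : ℕ) : ℝ) + Q) ≤ C * ω * Q ^ b * (2 * a ^ d * Q) := by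
          have := hs g (by omega)
          gcongr
        have k2 : C * Q ^ ε * Q ^ u * (((n ^ (g + 1) : ℕ) : ℝ) + Q)
            ≤ C * ω * Q ^ u * (2 * a ^ d * Q) := by
          have := hs (g + 1) le_rfl
          gcongr
        refine (mul_le_mul k1 k2 (by positivity) (by positivity)).trans (le_of_eq ?_)
        ring)
    rw [← hn, ← pow_succ', ← e2] at key
    refine Cov.mono key ?_
    have hQz : Q ^ (r0 + 1) = z ^ (r0 + 1) * (z ^ (r0 * d + (r0 + 1) + g)) ^ (r0 + 1) := by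
      rw [hQ, ← mul_pow, ← pow_succ', add_assoc _ g 1]
    have t1 : ((2 ^ (d + 1) * n : ℕ) : ℝ) * (a ^ g * (1 + g * β) *
        (z ^ (r0 * d + (r0 + 1) + g)) ^ (r0 + 1)) ≤ a ^ (g + 1) * (1 + g * β) * Q ^ (r0 + 1) := by
      refine (mul_le_mul_of_nonneg_right hlam (by positivity)).trans (le_of_eq ?_)
      rw [hQz]
      ring
    have t2 : (n : ℝ) * (((r0 + 1 : ℕ) : ℝ) * (4 * C ^ 2 * ω ^ 2 * a ^ (2 * d) * Q ^ (r0 + 1)))
        ≤ a ^ (g + 1) * β * Q ^ (r0 + 1) := by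
      refine (mul_le_mul_of_nonneg_right hnl (by positivity)).trans ?_
      have h3 : β * Q ^ (r0 + 1) ≤ a ^ (g + 1) * (β * Q ^ (r0 + 1)) :=
        le_mul_of_one_le_left (by positivity) (one_le_pow₀ ha)
      refine le_trans (le_of_eq ?_) (h3.trans (le_of_eq (mul_assoc _ _ _).symm))
      rw [hβ]
      push_cast
      ring
    refine (add_le_add t1 t2).trans (le_of_eq ?_)
    push_cast
    ring

end Pool.Agent.CT17
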