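import Pool.Agent.Lib.CT17.Num
import Pool.Agent.Lib.CT17.Arith

namespace Pool.Agent.CT17

open Module Finset

variable {F : Type} [Field F] [Fintype F]

lemma next_rank {r0 : ℕ} (IH : ∀ ε : ℝ, 0 < ε → ∃ C, 0 ≤ C ∧ Bd F r0 ε C) {ε : ℝ} (hε : 0 < ε) :
    ∃ C, 0 ≤ C ∧ ∀ k m, K F (r0 + 1) k m (C * ((Fintype.card F : ℝ) ^ m) ^ ε *
      ((Fintype.card F : ℝ) ^ m) ^ r0 * (k + (Fintype.card F : ℝ) ^ m)) := by
  obtain ⟨C, hC, hB⟩ := IH (ε / 4) (by positivity)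
  obtain ⟨d, hd, hdε⟩ : ∃ d : ℕ, 1 ≤ d ∧ 20 / ε ≤ d :=
    ⟨⌈20 / ε⌉₊ + 1, by omega, (Nat.le_ceil _).trans (by push_cast; linarith)⟩
  rw [div_le_iff₀ hε] at hdε
  set q := Fintype.card F with hq
  have hq1 : 1 ≤ q := Fintype.card_pos
  have hqR : (1 : ℝ) ≤ q := by exact_mod_cast hq1
  set μ := r0 * d + (r0 + 1) + d with hμ
  set κ : ℕ := 2 ^ (d + 1) * (d * (r0 + 1 + 1) ^ (d + 2)) with hκ
  have hκ1 : (1 : ℝ) ≤ κ := by exact_mod_cast (show 0 < κ by positivity)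
  set Γ : ℝ := (q : ℝ) ^ (μ * d) with hΓ
  have hΓ1 : 1 ≤ Γ := one_le_pow₀ hqR
  refine ⟨2 * (r0 + 1) * (1 + 4 * d * (r0 + 1) * C ^ 2) * κ ^ (3 * d + 1) * (Γ ^ ε * Γ ^ r0 * Γ),
    by positivity, fun k m => ?_⟩
  have hμd : 0 < μ * d := by positivity
  set c' := m / (μ * d) + 1 with hc'
  have m1 : m ≤ d * c' * μ := by
    have := Nat.lt_mul_div_succ m hμd
    rw [← hc'] at this
    exact this.le.trans (le_of_eq (by ring))
  have m2 : d * c' * μ ≤ μ * d + m := by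
    have := Nat.mul_div_le m (μ * d)
    rw [hc']
    exact le_trans (le_of_eq (by ring)) (Nat.add_le_add_left this (μ * d))
  set y := q ^ c' with hy
  have hy1 : 1 ≤ y := Nat.one_le_pow _ _ hq1
  have hyR : (1 : ℝ) ≤ y := by exact_mod_cast hy1
  have hz : q ^ (d * c') = y ^ d := by rw [hy, ← pow_mul, mul_comm]
  have hzR : (q : ℝ) ^ (d * c') = (y : ℝ) ^ d := by exact_mod_cast hz
  set l := (r0 + 1 + 1) * y ^ (r0 + 1) with hl
  have hn : d * l ^ (d + 2)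
      = d * (r0 + 1 + 1) ^ (d + 2) * (y ^ (2 * (r0 + 1)) * (y ^ d) ^ (r0 + 1)) := by
    rw [hl, mul_pow]
    ring
  have st := stages (F := F) (r0 := r0) (d := d) (c := d * c') (l := l) (ε := ε / 4) (C := C)
    (a := κ * (y : ℝ) ^ (2 * (r0 + 1))) (by positivity) hC hB (Nat.mul_pos hd (Nat.succ_pos _)) hd
    (Nat.mul_pos (by omega) (by positivity))
    (by
      rw [← hq, hz, hl, mul_pow, pow_right_comm y d]
      exact Nat.mul_le_mul_right _ (Nat.le_self_pow (Nat.one_le_iff_ne_zero.mp hd) _))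
    (one_le_mul_of_one_le_of_one_le hκ1 (one_le_pow₀ hyR))
    (by
      rw [← hq, hzR, hn, hκ]
      push_cast
      apply le_of_eq
      ring) d le_rfl
  rw [← hq, hzR, ← hμ] at st
  set n := d * l ^ (d + 2) with hn0
  set Z : ℝ := ((y : ℝ) ^ d) ^ μ with hZ
  have hZ1 : 1 ≤ Z := one_le_pow₀ (one_le_pow₀ hyR)
  have n1 : (y ^ d) ^ (r0 + 1) ≤ n := by
    rw [hn, ← mul_assoc]
    exact Nat.le_mul_of_pos_left _ (by positivity)
  have n2 : 2 * (r0 + 1) ≤ n ^ d := by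
    refine le_trans ?_ (Nat.le_self_pow (by omega) n)
    rw [hn]
    refine le_trans ?_ (Nat.le_mul_of_pos_right _ (by positivity))
    refine le_trans ?_ (Nat.le_mul_of_pos_left _ hd)
    refine le_trans ?_ (Nat.pow_le_pow_right (Nat.succ_pos _) (Nat.le_add_left 2 d))
    exact two_le_sq r0
  have hs0 : 0 < n ^ d := by omega
  set nb := 2 * (r0 + 1) * k / n ^ d + 1 with hnb
  have o1 : (r0 + 1) * k + (r0 + 1) * nb < n ^ d * nb := by
    have h1 := Nat.lt_mul_div_succ (2 * (r0 + 1) * k) hs0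
    rw [← hnb] at h1
    exact blocks h1 n2
  have k1 := K_outer o1 (show K F (r0 + 1) (n ^ d) m _ from Cov.right (by simpa using m1) st)
  have o2 : (nb : ℝ) * Z ≤ 2 * (r0 + 1) * ((y : ℝ) ^ d) ^ (r0 + 1) * (k + Z) := by
    have h1 : 2 * (r0 + 1) * k / n ^ d * (y ^ d) ^ μ
        ≤ 2 * (r0 + 1) * k * (y ^ d) ^ (r0 + 1) := by
      have e : (y ^ d) ^ μ = ((y ^ d) ^ (r0 + 1)) ^ d * (y ^ d) ^ (r0 + 1) := by
        rw [hμ]
        ring
      rw [e, ← mul_assoc]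
      exact Nat.mul_le_mul_right _ ((Nat.mul_le_mul_left _ (Nat.pow_le_pow_left n1 d)).trans
        (Nat.div_mul_le_self _ _))
    have h2 : ((2 * (r0 + 1) * k / n ^ d : ℕ) : ℝ) * Z
        ≤ 2 * (r0 + 1) * k * ((y : ℝ) ^ d) ^ (r0 + 1) := by
      rw [hZ]
      exact_mod_cast h1
    have h3 : (1 : ℝ) ≤ 2 * (r0 + 1) * ((y : ℝ) ^ d) ^ (r0 + 1) := by
      have : (0 : ℝ) ≤ r0 := Nat.cast_nonneg _
      exact one_le_mul_of_one_le_of_one_le (by linarith) (one_le_pow₀ (one_le_pow₀ hyR))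
    have h4 : Z ≤ 2 * (r0 + 1) * ((y : ℝ) ^ d) ^ (r0 + 1) * Z :=
      le_mul_of_one_le_left (by positivity) h3
    rw [hnb, Nat.cast_add, Nat.cast_one, add_mul, one_mul, mul_add _ (k : ℝ) Z]
    exact add_le_add (h2.trans (le_of_eq (by ring))) h4
  have w1 : 1 ≤ Z ^ (ε / 4) := Real.one_le_rpow hZ1 (by positivity)
  have w2 : (y : ℝ) ^ (10 * (r0 + 1) * d) ≤ (Z ^ (ε / 4)) ^ 2 := by
    rw [hZ, ← pow_mul, ← Real.rpow_natCast, ← Real.rpow_natCast, ← Real.rpow_natCast,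
      ← Real.rpow_mul (by positivity), ← Real.rpow_mul (by positivity)]
    refine Real.rpow_le_rpow_of_exponent_le hyR ?_
    rw [hμ]
    push_cast
    exact expo (Nat.cast_nonneg _) (Nat.cast_nonneg _) hε hdε
  have w4 : (Z ^ (ε / 4)) ^ 4 = Z ^ ε := by
    rw [← Real.rpow_natCast, ← Real.rpow_mul (by positivity)]
    norm_num
  have ar := arith (r := (r0 : ℝ) + 1) (d := (d : ℝ)) (κ := κ) (C := C) (r0 := r0) (dn := d)
    (by have : (0 : ℝ) ≤ r0 := Nat.cast_nonneg _; linarith) (Nat.cast_nonneg _) hκ1 hyR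
    (by positivity) w1 (Nat.cast_nonneg k) hd o2 w2
  refine Cov.mono k1 (ar.trans ?_)
  set Q : ℝ := (q : ℝ) ^ m with hQ
  have hQ1 : 1 ≤ Q := one_le_pow₀ hqR
  have hZQ : Z ≤ Γ * Q := by
    rw [hZ, ← hzR, ← pow_mul, hΓ, hQ, ← pow_add]
    exact pow_le_pow_right₀ hqR m2
  have z1 : Z ^ ε ≤ Γ ^ ε * Q ^ ε := by
    rw [← Real.mul_rpow (by positivity) (by positivity)]
    exact Real.rpow_le_rpow (by positivity) hZQ hε.le
  have z2 : Z ^ r0 ≤ Γ ^ r0 * Q ^ r0 := by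
    rw [← mul_pow]
    exact pow_le_pow_left₀ (by positivity) hZQ _
  have z3 : (k : ℝ) + Z ≤ Γ * (k + Q) := by
    have : (k : ℝ) ≤ Γ * k := le_mul_of_one_le_left (Nat.cast_nonneg _) hΓ1
    linarith
  rw [w4]
  calc _ ≤ 2 * ((r0 : ℝ) + 1) * (1 + 4 * d * (r0 + 1) * C ^ 2) * κ ^ (3 * d + 1) *
        (Γ ^ ε * Q ^ ε) * (Γ ^ r0 * Q ^ r0) * (Γ * (k + Q)) := by gcongr
    _ = _ := by ring

end Pool.Agent.CT17
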